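import Pool.Agent.Run7.h608.BC.Iface

/-!
# Piece DEN of project BC (helper608): the density of the Bernoulli convolution
-/

set_option autoImplicit false

open MeasureTheory Set Filter Topology
open scoped ENNReal

namespace Pool.Agent.Run7.h270.BCD

open Run7.h608.BC

theorem lint_mul {β : ℝ} (hβ : 0 < β) {F : ℝ → ℝ≥0∞} (hF : Measurable F) :
    ∫⁻ y, F (β * y) = ENNReal.ofReal β⁻¹ * ∫⁻ x, F x := by
  have h1 := lintegral_map (μ := (volume : Measure ℝ)) hF (measurable_const_mul β)
  rw [Real.map_volume_mul_left hβ.ne', lintegral_smul_measure, abs_of_pos (inv_pos.2 hβ)] at h1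
  rw [← h1]
  rfl

theorem lint_mul_sub {β : ℝ} (hβ : 0 < β) {F : ℝ → ℝ≥0∞} (hF : Measurable F) :
    ∫⁻ y, F (β * y - 1) = ENNReal.ofReal β⁻¹ * ∫⁻ x, F x := by
  have h1 := lint_mul hβ (F := fun u => F (u - 1)) (hF.comp (measurable_id.sub_const 1))
  rw [h1, lintegral_sub_right_eq_self]

theorem t_DEN : S_DEN := by
  intro β hβ hac
  have hβ0 : 0 < β := by linarith
  have : Fact (1 < β) := ⟨hβ⟩
  obtain ⟨μ, hμ⟩ : ∃ μ : Measure ℝ, μ = bernoulliConv β := ⟨_, rfl⟩
  have : IsProbabilityMeasure μ := by rw [hμ]; infer_instance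
  rw [← hμ] at hac
  obtain ⟨r, hr⟩ : ∃ r : ℝ → ℝ≥0∞, r = μ.rnDeriv volume := ⟨_, rfl⟩
  have hrm : Measurable r := by rw [hr]; exact Measure.measurable_rnDeriv _ _
  have hwd : volume.withDensity r = μ := by rw [hr]; exact Measure.withDensity_rnDeriv_eq _ _ hac
  have hfin : ∀ᵐ x, r x < ∞ := by rw [hr]; exact Measure.rnDeriv_lt_top μ volume
  have hI : MeasurableSet (Icc (0:ℝ) (1 / (β - 1))) := measurableSet_Icc
  have hout : μ (Icc (0:ℝ) (1 / (β - 1)))ᶜ = 0 := by
    rw [hμ]
    unfold bernoulliConv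
    rw [Measure.map_apply (continuous_expansion hβ).measurable hI.compl]
    have : expansion β ⁻¹' (Icc (0:ℝ) (1 / (β - 1)))ᶜ = ∅ := by
      rw [Set.eq_empty_iff_forall_notMem]
      intro a ha
      exact ha (expansion_mem hβ a)
    rw [this, measure_empty]
  have hr0 : ∀ᵐ x, x ∉ Icc (0:ℝ) (1 / (β - 1)) → r x = 0 := by
    rw [← hwd, withDensity_apply _ hI.compl, lintegral_eq_zero_iff hrm] at hout
    have := (ae_restrict_iff' hI.compl).1 hout
    filter_upwards [this] with x hx hx2
    exact hx hx2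
  obtain ⟨h, hh⟩ : ∃ h : ℝ → ℝ, h = (Icc (0:ℝ) (1 / (β - 1))).indicator (fun x => (r x).toReal) :=
    ⟨_, rfl⟩
  have hmeas : Measurable h := by
    rw [hh]
    exact hrm.ennreal_toReal.indicator hI
  have hnn : ∀ x, 0 ≤ h x := by
    intro x
    rw [hh]
    exact indicator_nonneg (fun _ _ => ENNReal.toReal_nonneg) x
  have hae : ∀ᵐ x, h x = (r x).toReal := by
    filter_upwards [hr0] with x hx
    rw [hh]
    by_cases hxI : x ∈ Icc (0:ℝ) (1 / (β - 1))
    · rw [indicator_of_mem hxI]
    · rw [indicator_of_notMem hxI, hx hxI, ENNReal.toReal_zero]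
  have haer : ∀ᵐ x, r x = ENNReal.ofReal (h x) := by
    filter_upwards [hae, hfin] with x hx hx2
    rw [hx, ENNReal.ofReal_toReal hx2.ne]
  have hint0 : Integrable (fun x => (r x).toReal) := by
    rw [hr]
    exact Measure.integrable_toReal_rnDeriv
  have hint : Integrable h := hint0.congr (hae.mono fun x hx => hx.symm)
  have hmass : ∫ x, h x = 1 := by
    rw [integral_congr_ae hae, hr, Measure.integral_toReal_rnDeriv hac]
    simp [measureReal_def]
  -- the measure of a set
  have hμA : ∀ A : Set ℝ, MeasurableSet A → μ A = ∫⁻ x, A.indicator (fun x => ENNReal.ofReal (h x)) x := by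
    intro A hA
    rw [lintegral_indicator hA]
    calc μ A = volume.withDensity r A := by rw [hwd]
      _ = ∫⁻ x in A, r x := withDensity_apply _ hA
      _ = ∫⁻ x in A, ENNReal.ofReal (h x) := lintegral_congr_ae (ae_restrict_of_ae haer)
  have hofm : Measurable fun x => ENNReal.ofReal (h x) := hmeas.ennreal_ofReal
  have hm0 : Measurable fun x : ℝ => x / β := by fun_prop
  have hm1 : Measurable fun x : ℝ => (1 + x) / β := by fun_prop
  have hc0 : Measurable fun y : ℝ => β * y := by fun_prop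
  have hc1 : Measurable fun y : ℝ => β * y - 1 := by fun_prop
  have key : (fun x => ENNReal.ofReal (h x)) =ᵐ[volume]
      fun x => ENNReal.ofReal (β / 2 * (h (β * x) + h (β * x - 1))) := by
    apply ae_eq_of_forall_setLIntegral_eq_of_sigmaFinite hofm
    · exact (((hmeas.comp hc0).add (hmeas.comp hc1)).const_mul _).ennreal_ofReal
    intro A hA _
    have hA0 : MeasurableSet {x : ℝ | x / β ∈ A} := hm0 hA
    have hA1 : MeasurableSet {x : ℝ | (1 + x) / β ∈ A} := hm1 hA
    have e1 : ∫⁻ x in A, ENNReal.ofReal (h x) = μ A := by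
      rw [hμA A hA, lintegral_indicator hA]
    have e2 : μ A = 2⁻¹ * μ {x | x / β ∈ A} + 2⁻¹ * μ {x | (1 + x) / β ∈ A} := by
      rw [hμ]
      exact self_similar hβ hA
    have e3 : ∫⁻ y in A, ENNReal.ofReal (h (β * y)) = ENNReal.ofReal β⁻¹ * μ {x | x / β ∈ A} := by
      rw [hμA _ hA0, ← lint_mul hβ0 (hofm.indicator hA0), ← lintegral_indicator hA]
      congr 1
      funext y
      by_cases hy : y ∈ A
      · have hy2 : β * y ∈ {x : ℝ | x / β ∈ A} := by
          show β * y / β ∈ A
          rwa [mul_div_cancel_left₀ _ hβ0.ne']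
        rw [indicator_of_mem hy, indicator_of_mem hy2]
      · have hy2 : β * y ∉ {x : ℝ | x / β ∈ A} := by
          show ¬ (β * y / β ∈ A)
          rwa [mul_div_cancel_left₀ _ hβ0.ne']
        rw [indicator_of_notMem hy, indicator_of_notMem hy2]
    have e4 : ∫⁻ y in A, ENNReal.ofReal (h (β * y - 1)) =
        ENNReal.ofReal β⁻¹ * μ {x | (1 + x) / β ∈ A} := by
      rw [hμA _ hA1, ← lint_mul_sub hβ0 (hofm.indicator hA1), ← lintegral_indicator hA]
      congr 1
      funext y
      have hyy : (1 + (β * y - 1)) / β = y := by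
        rw [add_sub_cancel, mul_div_cancel_left₀ _ hβ0.ne']
      by_cases hy : y ∈ A
      · have hy2 : β * y - 1 ∈ {x : ℝ | (1 + x) / β ∈ A} := by
          show (1 + (β * y - 1)) / β ∈ A
          rwa [hyy]
        rw [indicator_of_mem hy, indicator_of_mem hy2]
      · have hy2 : β * y - 1 ∉ {x : ℝ | (1 + x) / β ∈ A} := by
          show ¬ ((1 + (β * y - 1)) / β ∈ A)
          rwa [hyy]
        rw [indicator_of_notMem hy, indicator_of_notMem hy2]
    have e5 : ∫⁻ x in A, ENNReal.ofReal (β / 2 * (h (β * x) + h (β * x - 1))) =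
        ENNReal.ofReal (β / 2) * ((∫⁻ y in A, ENNReal.ofReal (h (β * y))) +
          ∫⁻ y in A, ENNReal.ofReal (h (β * y - 1))) := by
      have f1 : Measurable fun y => ENNReal.ofReal (h (β * y)) := hofm.comp hc0
      have f2 : Measurable fun y => ENNReal.ofReal (h (β * y - 1)) := hofm.comp hc1
      rw [← lintegral_add_left f1]
      have f3 : Measurable fun y => ENNReal.ofReal (h (β * y)) + ENNReal.ofReal (h (β * y - 1)) := f1.add f2
      rw [← lintegral_const_mul _ f3]
      congr 1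
      funext x
      rw [ENNReal.ofReal_mul (by positivity), ENNReal.ofReal_add (hnn _) (hnn _)]
    have e6 : ENNReal.ofReal (β / 2) * ENNReal.ofReal β⁻¹ = 2⁻¹ := by
      rw [← ENNReal.ofReal_mul (by positivity)]
      have : β / 2 * β⁻¹ = 2⁻¹ := by field_simp
      rw [this, ENNReal.ofReal_inv_of_pos two_pos, ENNReal.ofReal_ofNat]
    rw [e1, e5, e3, e4, ← mul_add, ← mul_assoc, e6, e2, mul_add]
  refine ⟨h, ⟨hmeas, hnn, hint, hmass, ?_, ?_⟩, ?_⟩
  · intro x hx
    rw [hh]
    exact indicator_of_notMem hx _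
  · filter_upwards [key] with x hx
    have h1 : 0 ≤ β / 2 * (h (β * x) + h (β * x - 1)) :=
      mul_nonneg (by positivity) (add_nonneg (hnn _) (hnn _))
    have hx' : ENNReal.ofReal (h x) = ENNReal.ofReal (β / 2 * (h (β * x) + h (β * x - 1))) := hx
    exact (ENNReal.ofReal_eq_ofReal_iff (hnn x) h1).1 hx'
  · rw [← hμ, ← hr]
    exact haer

end Pool.Agent.Run7.h270.BCD

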