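import Pool.Agent.Run7.h608.BC.Iface

/-!
# Piece LOC of project BC (helper608)
-/

set_option autoImplicit false

open MeasureTheory Set Filter Topology
open scoped ENNReal ContDiff

namespace Pool.Agent.Run7.h270.BC

open Run7.h608.BC

theorem contDiff_e : ContDiff ℝ ∞ e := by
  unfold e
  have h1 : ContDiff ℝ ∞ fun θ : ℝ => (((2 * Real.pi * θ : ℝ)) : ℂ) :=
    Complex.ofRealCLM.contDiff.comp (contDiff_const.mul contDiff_id)
  exact (h1.mul contDiff_const).cexp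

theorem contDiff_mk (β : ℝ) (k : ℕ) : ContDiff ℝ ∞ (mk β k) := by
  unfold Run7.h608.BC.mk
  apply contDiff_prod
  intro j _
  unfold m
  apply ContDiff.div_const
  apply contDiff_const.add
  exact contDiff_e.comp ((contDiff_const.mul contDiff_id).neg)

theorem t_LOC (hGEN : S_GEN) (hWAV : S_WAV) (hTAI : S_TAI) : S_LOC := by
  intro β x C hβ hG ξ₀ hmk g hg δ ρ hδ hρ
  have hC : 0 ≤ C := hG.1
  have hβ0 : 0 < β := by linarith
  let b : ContDiffBump (0:ℝ) := ⟨1 / 2, 1, by norm_num, by norm_num⟩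
  obtain ⟨χ₁, hχ₁⟩ : ∃ χ₁ : ℝ → ℂ, χ₁ = fun t => ((b t : ℝ) : ℂ) := ⟨_, rfl⟩
  have hχs : ContDiff ℝ ∞ χ₁ := by
    rw [hχ₁]
    exact Complex.ofRealCLM.contDiff.comp b.contDiff
  have hχ0 : ∀ t : ℝ, 1 ≤ |t| → χ₁ t = 0 := by
    intro t ht
    rw [hχ₁]
    have : b t = 0 := by
      apply b.zero_of_le_dist
      rw [Real.dist_eq, sub_zero]
      exact ht
    simp only [this, Complex.ofReal_zero]
  have hχ1 : ∀ t : ℝ, |t| ≤ 1 / 2 → χ₁ t = 1 := by
    intro t ht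
    rw [hχ₁]
    have : b t = 1 := by
      apply b.one_of_mem_closedBall
      rw [Metric.mem_closedBall, Real.dist_eq, sub_zero]
      exact ht
    simp only [this, Complex.ofReal_one]
  have hχT : Tst χ₁ := by
    refine ⟨hχs, ?_⟩
    apply HasCompactSupport.intro (K := Icc (-1:ℝ) 1) isCompact_Icc
    intro t ht
    apply hχ0
    by_contra hcon
    push Not at hcon
    exact ht ⟨(abs_lt.1 hcon).1.le, (abs_lt.1 hcon).2.le⟩
  obtain ⟨A, hA0, hA⟩ := hWAV χ₁ hχT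
  obtain ⟨k, hk⟩ : ∃ k : ℕ, 8 * C * A * ‖g ξ₀‖ * ‖mk β k ξ₀‖ < δ / 2 := by
    have h1 : Tendsto (fun k : ℕ => 8 * C * A * ‖g ξ₀‖ * ‖mk β k ξ₀‖) atTop (𝓝 0) := by
      have := (hmk.norm).const_mul (8 * C * A * ‖g ξ₀‖)
      rwa [norm_zero, mul_zero] at this
    exact (h1.eventually_lt_const (by positivity)).exists
  obtain ⟨q, hq⟩ : ∃ q : ℝ → ℂ, q = fun ξ => g ξ * mk β k ξ := ⟨_, rfl⟩
  have hqs : ContDiff ℝ ∞ q := by
    rw [hq]
    exact hg.1.mul (contDiff_mk β k)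
  obtain ⟨B, hB0, hB⟩ := hA q hqs ξ₀
  have hβk : 0 < β ^ k := by positivity
  obtain ⟨ε, hε0, hε1, hερ, hεβ, hεB⟩ : ∃ ε : ℝ, 0 < ε ∧ ε ≤ 1 ∧ ε ≤ ρ ∧ ε * β ^ k ≤ 1 ∧
      8 * C * B * ε ≤ δ / 2 := by
    refine ⟨min (min 1 ρ) (min (1 / β ^ k) (δ / 2 / (8 * C * B + 1))), ?_, ?_, ?_, ?_, ?_⟩
    · have : 0 < 8 * C * B + 1 := by positivity
      positivity
    · exact (min_le_left _ _).trans (min_le_left _ _)
    · exact (min_le_left _ _).trans (min_le_right _ _)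
    · have h1 : min (min 1 ρ) (min (1 / β ^ k) (δ / 2 / (8 * C * B + 1))) ≤ 1 / β ^ k :=
        (min_le_right _ _).trans (min_le_left _ _)
      rwa [le_div_iff₀ hβk] at h1
    · have h1 : min (min 1 ρ) (min (1 / β ^ k) (δ / 2 / (8 * C * B + 1))) ≤ δ / 2 / (8 * C * B + 1) :=
        (min_le_right _ _).trans (min_le_right _ _)
      have h2 : 0 < 8 * C * B + 1 := by positivity
      have h3 : 0 ≤ 8 * C * B := by positivity
      calc 8 * C * B * min (min 1 ρ) (min (1 / β ^ k) (δ / 2 / (8 * C * B + 1))) ≤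
            8 * C * B * (δ / 2 / (8 * C * B + 1)) := mul_le_mul_of_nonneg_left h1 h3
        _ = (8 * C * B / (8 * C * B + 1)) * (δ / 2) := by ring
        _ ≤ 1 * (δ / 2) := by
            apply mul_le_mul_of_nonneg_right _ (by positivity)
            rw [div_le_one h2]
            linarith
        _ = δ / 2 := one_mul _
  refine ⟨fun ξ => χ₁ ((ξ - ξ₀) / ε), ?_, ?_, ?_, k, ?_⟩
  · exact hχs.comp ((contDiff_id.sub contDiff_const).div_const _)
  · have h1 : ∀ᶠ ξ in 𝓝 ξ₀, |(ξ - ξ₀) / ε| < 1 / 2 := by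
      have h2 : ContinuousAt (fun ξ : ℝ => |(ξ - ξ₀) / ε|) ξ₀ := by fun_prop
      exact h2.eventually_lt_const (by simp)
    filter_upwards [h1] with ξ hξ
    exact hχ1 _ hξ.le
  · intro ξ hξ
    apply hχ0
    rw [abs_div, abs_of_pos hε0, one_le_div hε0]
    exact hερ.trans hξ
  · intro n hn
    obtain ⟨n', rfl⟩ := Nat.exists_eq_add_of_le' hn
    rw [L_comp]
    have hgT : Tst fun ξ => g ξ * χ₁ ((ξ - ξ₀) / ε) := by
      refine ⟨hg.1.mul (hχs.comp ((contDiff_id.sub contDiff_const).div_const _)), ?_⟩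
      exact hg.2.mul_right
    obtain ⟨R, hR⟩ : ∃ R : ℝ, R = 1 / (ε * β ^ k) := ⟨_, rfl⟩
    have hR1 : 1 ≤ R := by
      rw [hR, one_le_div (by positivity)]
      exact hεβ
    have hR0 : 0 < R := by linarith
    have hbd : ∀ t, ‖(P β)^[k] (T fun ξ => g ξ * χ₁ ((ξ - ξ₀) / ε)) t‖ ≤
        ((A * ‖q ξ₀‖ + B * ε) / R) * (1 / (1 + (t / R) ^ 2)) := by
      intro t
      rw [hGEN β hβ _ hgT k t, norm_mul, Complex.norm_real, Real.norm_eq_abs, abs_of_pos hβk]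
      have h1 := hB ε hε0 hε1 (β ^ k * t)
      have h2 : (∫ ξ, g ξ * χ₁ ((ξ - ξ₀) / ε) * mk β k ξ * e (ξ * (β ^ k * t))) =
          ∫ ξ, q ξ * χ₁ ((ξ - ξ₀) / ε) * e (ξ * (β ^ k * t)) := by
        congr 1
        funext ξ
        rw [hq]
        ring
      rw [h2]
      have h3 : t / R = ε * (β ^ k * t) := by
        rw [hR]
        field_simp
      rw [h3]
      calc β ^ k * ‖∫ ξ, q ξ * χ₁ ((ξ - ξ₀) / ε) * e (ξ * (β ^ k * t))‖ ≤
            β ^ k * (ε * (A * ‖q ξ₀‖ + B * ε) / (1 + (ε * (β ^ k * t)) ^ 2)) :=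
            mul_le_mul_of_nonneg_left h1 hβk.le
        _ = (A * ‖q ξ₀‖ + B * ε) / R * (1 / (1 + (ε * (β ^ k * t)) ^ 2)) := by
            rw [hR]
            field_simp
    refine (norm_L_le β x hβ n' _ _ hbd).trans ?_
    rw [LR_smul]
    have h4 := hTAI β x C hβ hG n' R hR1
    have h5 : 0 ≤ (A * ‖q ξ₀‖ + B * ε) / R := by positivity
    have h6 : ‖q ξ₀‖ = ‖g ξ₀‖ * ‖mk β k ξ₀‖ := by rw [hq, norm_mul]
    calc (A * ‖q ξ₀‖ + B * ε) / R * LR β x n' (fun t => 1 / (1 + (t / R) ^ 2)) ≤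
          (A * ‖q ξ₀‖ + B * ε) / R * (8 * C * R) := mul_le_mul_of_nonneg_left h4 h5
      _ = 8 * C * A * ‖g ξ₀‖ * ‖mk β k ξ₀‖ + 8 * C * B * ε := by
          rw [h6]
          field_simp
      _ ≤ δ / 2 + δ / 2 := add_le_add hk.le hεB
      _ = δ := by ring

end Pool.Agent.Run7.h270.BC

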